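import Pool.Agent.H82.G4.Targets
import Pool.Agent.H61.G.Basic

/-!
Theorem G (MP_ee74d2_an), group G4, row SIG: a large cap is controlled by the weighted suprema of
the small caps near it.
-/

set_option autoImplicit false

namespace Pool.Agent.H45.G4.SIG

open Pool.Agent.H82.G4 Pool.Agent.H83.G Pool.Agent.H61.G MeasureTheory Set
open scoped ENNReal NNReal RealInnerProductSpace

/-- norm of the shift -/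
private theorem shift_norm {m : ℕ} {K₁ D : ℝ} (hK₁ : 1 ≤ K₁) (hD : 0 ≤ D) (c : E m)
    (hc : ‖c‖ ≤ D) (u : ℝ × E m) :
    ‖((u.1 - (K₁⁻¹)⁻¹ * ⟪u.2, c⟫, (K₁⁻¹)⁻¹ • u.2, 0) : Z m)‖ ≤ K₁ * ((1 + D) * ‖u‖) := by
  have hu1 : ‖u.1‖ ≤ ‖u‖ := norm_fst_le u
  have hu2 : ‖u.2‖ ≤ ‖u‖ := norm_snd_le u
  have hn := norm_nonneg u
  have hn2 := norm_nonneg u.2
  have hin : |⟪u.2, c⟫| ≤ ‖u‖ * D := (abs_real_inner_le_norm u.2 c).trans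
    (mul_le_mul hu2 hc (norm_nonneg c) hn)
  rw [inv_inv]
  refine norm_prod_le_iff.2 ⟨?_, norm_prod_le_iff.2 ⟨?_, ?_⟩⟩
  · simp only [Real.norm_eq_abs] at hu1 ⊢
    have h1 : |K₁ * ⟪u.2, c⟫| = K₁ * |⟪u.2, c⟫| := by
      rw [abs_mul, abs_of_nonneg (by linarith)]
    have h2 := abs_sub u.1 (K₁ * ⟪u.2, c⟫)
    rw [h1] at h2
    have h3 : K₁ * |⟪u.2, c⟫| ≤ K₁ * (‖u‖ * D) := mul_le_mul_of_nonneg_left hin (by linarith)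
    nlinarith
  · simp only
    rw [norm_smul, Real.norm_of_nonneg (by linarith)]
    have h4 : ‖u.2‖ ≤ (1 + D) * ‖u‖ := by nlinarith
    exact mul_le_mul_of_nonneg_left h4 (by linarith)
  · simp only [norm_zero]
    positivity

/-- from the weighted supremum to a value -/
private theorem aw_val {m : ℕ} (N : ℕ) (K : ℝ) (f : Z m → ℂ) (j : Zi m) (z : Z m) :
    ‖f z‖ₑ ≤ aw N K 0 f j * ENNReal.ofReal ((1 + ‖K⁻¹ ^ 2 • z - zc j‖) ^ N) := by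
  have h0 : ‖f z‖ₑ * ENNReal.ofReal (wt N (K⁻¹ ^ 2 • z - zc j)) ≤ aw N K 0 f j := by
    unfold aw
    exact le_iSup₂ (f := fun (z : Z m) (_ : (0 : ℝ) ≤ ‖K⁻¹ ^ 2 • z - zc j‖) =>
      ‖f z‖ₑ * ENNReal.ofReal (wt N (K⁻¹ ^ 2 • z - zc j))) z (norm_nonneg _)
  have hpos : (0 : ℝ) < (1 + ‖K⁻¹ ^ 2 • z - zc j‖) ^ N := by positivity
  have h1 : ENNReal.ofReal (wt N (K⁻¹ ^ 2 • z - zc j)) *
      ENNReal.ofReal ((1 + ‖K⁻¹ ^ 2 • z - zc j‖) ^ N) = 1 := by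
    rw [← ENNReal.ofReal_mul (wt_pos N _).le]
    unfold wt
    rw [inv_mul_cancel₀ hpos.ne', ENNReal.ofReal_one]
  calc ‖f z‖ₑ = ‖f z‖ₑ * (ENNReal.ofReal (wt N (K⁻¹ ^ 2 • z - zc j)) *
      ENNReal.ofReal ((1 + ‖K⁻¹ ^ 2 • z - zc j‖) ^ N)) := by rw [h1, mul_one]
    _ = ‖f z‖ₑ * ENNReal.ofReal (wt N (K⁻¹ ^ 2 • z - zc j)) *
      ENNReal.ofReal ((1 + ‖K⁻¹ ^ 2 • z - zc j‖) ^ N) := by rw [mul_assoc]
    _ ≤ _ := by gcongr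

open scoped Classical in
/-- the decomposition of a large cap -/
private theorem split (hPUS : T_PUS) (hCPS : T_CPS) {m : ℕ} {β : E m → ℂ} (hβ : IsPU β)
    {K₁ K : ℝ} (hK₁ : 1 ≤ K₁) (hK : K₁ ≤ K) {G : Z m → ℂ} (hG : TC G)
    (hsupp : ∀ ζ, G ζ ≠ 0 → 1 / 2 ≤ ζ.1 ∧ ζ.1 ≤ 6 ∧ ‖ζ.2.1‖ ≤ 3 / 2 * ζ.1) (k' : Fin m → ℤ)
    (z : Z m) :
    uk β K₁ G k' z =
      ∑ k ∈ (Ks m K⁻¹).filter (fun k => ‖ctr K⁻¹ k - ctr K₁⁻¹ k'‖ ≤ 2 / K₁),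
        TP β (ctr K₁⁻¹ k') K₁⁻¹ (fun ζ => cp β (ctr K⁻¹ k) K⁻¹ ζ * G ζ) z := by
  have hK0 : 0 < K := by linarith
  have hK10 : 0 < K₁ := by linarith
  have hr : 0 < K⁻¹ := by positivity
  have hr1 : 0 < K₁⁻¹ := by positivity
  have hrr : K⁻¹ ≤ K₁⁻¹ := inv_anti₀ hK10 hK
  have hr2 : K⁻¹ ≤ 1 := inv_le_one_of_one_le₀ (by linarith)
  have hTC : ∀ k, TC (fun ζ => cp β (ctr K⁻¹ k) K⁻¹ ζ * G ζ) := by
    intro k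
    refine hCPS m β _ _ G hβ.1 hr hG fun ζ hζ => ?_
    have := (hsupp ζ hζ).1
    linarith
  have hTC2 : ∀ k, TC (fun ζ => cp β (ctr K₁⁻¹ k') K₁⁻¹ ζ * (cp β (ctr K⁻¹ k) K⁻¹ ζ * G ζ)) := by
    intro k
    refine hCPS m β _ _ (fun ζ => cp β (ctr K⁻¹ k) K⁻¹ ζ * G ζ) hβ.1 hr1 (hTC k) fun ζ hζ => ?_
    have := (hsupp ζ (right_ne_zero_of_mul hζ)).1
    linarith
  unfold uk TP
  rw [← TF_sum (fun k _ => hTC2 k) z]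
  congr 1
  funext ζ
  by_cases h0 : G ζ = 0
  · simp [h0]
  obtain ⟨a1, a2, a3⟩ := hsupp ζ h0
  have h2 : 0 < ζ.1 := by linarith
  have h3 : ‖ζ.1⁻¹ • ζ.2.1‖ ≤ 3 / 2 := by
    rw [norm_smul, Real.norm_of_nonneg (by positivity), inv_mul_le_iff₀ h2]
    nlinarith
  have h4 : ∑ k ∈ Ks m K⁻¹, cp β (ctr K⁻¹ k) K⁻¹ ζ = 1 :=
    ((hPUS m).1 β K⁻¹ hβ hr).2 hr2 ζ h3
  by_cases h5 : cp β (ctr K₁⁻¹ k') K₁⁻¹ ζ = 0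
  · simp [h5]
  have h6 : ∑ k ∈ (Ks m K⁻¹).filter (fun k => ‖ctr K⁻¹ k - ctr K₁⁻¹ k'‖ ≤ 2 / K₁),
      cp β (ctr K⁻¹ k) K⁻¹ ζ = ∑ k ∈ Ks m K⁻¹, cp β (ctr K⁻¹ k) K⁻¹ ζ := by
    refine Finset.sum_subset (Finset.filter_subset _ _) fun k hk hk' => ?_
    by_contra h7
    apply hk'
    refine Finset.mem_filter.2 ⟨hk, ?_⟩
    have h8 := cp_ne hβ.2.1 hr h7
    have h9 := cp_ne hβ.2.1 hr1 h5
    have h10 : ctr K⁻¹ k - ctr K₁⁻¹ k' =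
        (ζ.1⁻¹ • ζ.2.1 - ctr K₁⁻¹ k') - (ζ.1⁻¹ • ζ.2.1 - ctr K⁻¹ k) := by abel
    rw [h10]
    refine (norm_sub_le _ _).trans ?_
    rw [div_eq_mul_inv]
    linarith
  calc cp β (ctr K₁⁻¹ k') K₁⁻¹ ζ * G ζ
      = cp β (ctr K₁⁻¹ k') K₁⁻¹ ζ * ((∑ k ∈ (Ks m K⁻¹).filter
          (fun k => ‖ctr K⁻¹ k - ctr K₁⁻¹ k'‖ ≤ 2 / K₁), cp β (ctr K⁻¹ k) K⁻¹ ζ) * G ζ) := by
        rw [h6, h4, one_mul]
    _ = _ := by rw [Finset.sum_mul, Finset.mul_sum]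

theorem pf_SIG (hKER : T_KER) (hPUB : T_PUB) (hPUS : T_PUS) (hCPS : T_CPS) (hWT2 : T_WT2) :
    T_SIG := by
  intro m N β hβ
  obtain ⟨Cβ, hCβ, hφ⟩ := hPUB m (N + (m + 3)) β hβ
  obtain ⟨CK, hCK⟩ := hKER m (N + (m + 3))
  obtain ⟨-, -, D, hD, -, -, hctr⟩ := hPUS m
  obtain ⟨CW, -, -, hCW⟩ := hWT2 m (m + 3) le_rfl
  set C₂ : ℝ := (m : ℝ) + 2 + (1 + D) with hC₂
  have hC₂0 : 0 < C₂ := by positivity
  refine ⟨Real.toNNReal Cβ * CK * (Real.toNNReal (C₂ ^ N) * CW), ?_⟩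
  intro K₁ K G j z k' hK₁ hK hG hsupp hz hk'
  have hK0 : 0 < K := by linarith
  have hK10 : 0 < K₁ := by linarith
  have hr : 0 < K⁻¹ := by positivity
  have hr1 : 0 < K₁⁻¹ := by positivity
  have hr1' : K₁⁻¹ ≤ 1 := inv_le_one_of_one_le₀ hK₁
  have hcD : ‖ctr K₁⁻¹ k'‖ ≤ D := hctr K₁⁻¹ k' hr1 hr1' hk'
  rw [split hPUS hCPS hβ hK₁ hK hG hsupp k' z]
  refine (enorm_sum_le _ _).trans ?_
  rw [Finset.mul_sum]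
  refine Finset.sum_le_sum fun k _ => ?_
  have hTCk : TC (fun ζ => cp β (ctr K⁻¹ k) K⁻¹ ζ * G ζ) := by
    refine hCPS m β _ _ G hβ.1 hr hG fun ζ hζ => ?_
    have := (hsupp ζ hζ).1
    linarith
  have hsk : ∀ ζ, (fun ζ => cp β (ctr K⁻¹ k) K⁻¹ ζ * G ζ) ζ ≠ 0 → 1 / 4 ≤ ζ.1 ∧ ζ.1 ≤ 8 := by
    intro ζ hζ
    obtain ⟨a1, a2, -⟩ := hsupp ζ (right_ne_zero_of_mul hζ)
    exact ⟨by linarith, by linarith⟩
  -- the multiple of `β`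
  have h1 : TP β (ctr K₁⁻¹ k') K₁⁻¹ (fun ζ => cp β (ctr K⁻¹ k) K⁻¹ ζ * G ζ) z =
      ((Cβ : ℝ) : ℂ) * TP (fun x => ((Cβ⁻¹ : ℝ) : ℂ) * β x) (ctr K₁⁻¹ k') K₁⁻¹
        (fun ζ => cp β (ctr K⁻¹ k) K⁻¹ ζ * G ζ) z := by
    unfold TP
    rw [← TF_const]
    congr 1
    funext ζ
    have hne : ((Cβ : ℝ) : ℂ) ≠ 0 := by
      rw [Ne, Complex.ofReal_eq_zero]
      linarith
    unfold cp
    push_cast
    field_simp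
  have h2 := hCK _ hφ (ctr K₁⁻¹ k') K₁⁻¹ (fun ζ => cp β (ctr K⁻¹ k) K⁻¹ ζ * G ζ) hr1 hTCk hsk z
  -- the integrand
  have h3 : ∀ u : ℝ × E m, ENNReal.ofReal (((1 + ‖u‖) ^ (N + (m + 3)))⁻¹) *
      ‖TF (fun ζ => cp β (ctr K⁻¹ k) K⁻¹ ζ * G ζ)
        (z - (u.1 - (K₁⁻¹)⁻¹ * ⟪u.2, ctr K₁⁻¹ k'⟫, (K₁⁻¹)⁻¹ • u.2, 0))‖ₑ ≤
      (aw N K 0 (uk β K G k) j * ENNReal.ofReal (C₂ ^ N)) *
        ENNReal.ofReal (((1 + ‖u‖) ^ (m + 3))⁻¹) := by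
    intro u
    set t : Z m := (u.1 - (K₁⁻¹)⁻¹ * ⟪u.2, ctr K₁⁻¹ k'⟫, (K₁⁻¹)⁻¹ • u.2, 0) with ht
    have ht1 : ‖t‖ ≤ K₁ * ((1 + D) * ‖u‖) := shift_norm hK₁ hD.le _ hcD u
    have hun := norm_nonneg u
    have hy : ‖K⁻¹ ^ 2 • (z - t) - zc j‖ ≤ ((m : ℝ) + 1) + (1 + D) * ‖u‖ := by
      have e1 : K⁻¹ ^ 2 • (z - t) - zc j = (K⁻¹ ^ 2 • z - zc j) - K⁻¹ ^ 2 • t := by
        rw [smul_sub]; abel
      have e2 : ‖K⁻¹ ^ 2 • t‖ ≤ (1 + D) * ‖u‖ := by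
        rw [norm_smul, Real.norm_of_nonneg (by positivity)]
        have e3 : K⁻¹ ^ 2 * K₁ ≤ 1 := by
          have e4 : K⁻¹ * K₁ ≤ 1 := by
            rw [inv_mul_le_iff₀ hK0]; linarith
          have e5 : K⁻¹ ≤ 1 := inv_le_one_of_one_le₀ (by linarith)
          have e6 : 0 ≤ K⁻¹ * K₁ := by positivity
          nlinarith
        have e7 : 0 ≤ (1 + D) * ‖u‖ := by positivity
        calc K⁻¹ ^ 2 * ‖t‖ ≤ K⁻¹ ^ 2 * (K₁ * ((1 + D) * ‖u‖)) :=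
              mul_le_mul_of_nonneg_left ht1 (by positivity)
          _ = (K⁻¹ ^ 2 * K₁) * ((1 + D) * ‖u‖) := by ring
          _ ≤ 1 * ((1 + D) * ‖u‖) := mul_le_mul_of_nonneg_right e3 e7
          _ = _ := one_mul _
      rw [e1]
      exact (norm_sub_le _ _).trans (add_le_add hz e2)
    have h4 := aw_val N K (uk β K G k) j (z - t)
    have h5 : (1 + ‖K⁻¹ ^ 2 • (z - t) - zc j‖) ^ N ≤ C₂ ^ N * (1 + ‖u‖) ^ N := by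
      rw [← mul_pow]
      refine pow_le_pow_left₀ (by positivity) ?_ N
      have : 0 ≤ ((m : ℝ) + 2) * ‖u‖ := by positivity
      have hm0 : (0 : ℝ) ≤ m := Nat.cast_nonneg m
      rw [hC₂]
      nlinarith
    have h6 : ENNReal.ofReal (((1 + ‖u‖) ^ (N + (m + 3)))⁻¹) *
        ENNReal.ofReal ((1 + ‖K⁻¹ ^ 2 • (z - t) - zc j‖) ^ N) ≤
        ENNReal.ofReal (C₂ ^ N) * ENNReal.ofReal (((1 + ‖u‖) ^ (m + 3))⁻¹) := by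
      rw [← ENNReal.ofReal_mul (by positivity), ← ENNReal.ofReal_mul (by positivity)]
      refine ENNReal.ofReal_le_ofReal ?_
      have h7 : (0 : ℝ) < 1 + ‖u‖ := by positivity
      calc ((1 + ‖u‖) ^ (N + (m + 3)))⁻¹ * (1 + ‖K⁻¹ ^ 2 • (z - t) - zc j‖) ^ N
          ≤ ((1 + ‖u‖) ^ (N + (m + 3)))⁻¹ * (C₂ ^ N * (1 + ‖u‖) ^ N) :=
            mul_le_mul_of_nonneg_left h5 (by positivity)
        _ = C₂ ^ N * ((1 + ‖u‖) ^ (m + 3))⁻¹ := by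
            rw [pow_add]
            field_simp
    calc ENNReal.ofReal (((1 + ‖u‖) ^ (N + (m + 3)))⁻¹) *
        ‖TF (fun ζ => cp β (ctr K⁻¹ k) K⁻¹ ζ * G ζ) (z - t)‖ₑ
        ≤ ENNReal.ofReal (((1 + ‖u‖) ^ (N + (m + 3)))⁻¹) * (aw N K 0 (uk β K G k) j *
          ENNReal.ofReal ((1 + ‖K⁻¹ ^ 2 • (z - t) - zc j‖) ^ N)) := by
          gcongr
          exact h4
      _ = aw N K 0 (uk β K G k) j * (ENNReal.ofReal (((1 + ‖u‖) ^ (N + (m + 3)))⁻¹) *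
          ENNReal.ofReal ((1 + ‖K⁻¹ ^ 2 • (z - t) - zc j‖) ^ N)) := by ring
      _ ≤ aw N K 0 (uk β K G k) j * (ENNReal.ofReal (C₂ ^ N) *
          ENNReal.ofReal (((1 + ‖u‖) ^ (m + 3))⁻¹)) := by gcongr
      _ = _ := by ring
  have hmeas : Measurable fun u : ℝ × E m => ENNReal.ofReal (((1 + ‖u‖) ^ (m + 3))⁻¹) := by
    fun_prop
  have h8 : ∫⁻ u : ℝ × E m, ENNReal.ofReal (((1 + ‖u‖) ^ (N + (m + 3)))⁻¹) *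
      ‖TF (fun ζ => cp β (ctr K⁻¹ k) K⁻¹ ζ * G ζ)
        (z - (u.1 - (K₁⁻¹)⁻¹ * ⟪u.2, ctr K₁⁻¹ k'⟫, (K₁⁻¹)⁻¹ • u.2, 0))‖ₑ ≤
      (aw N K 0 (uk β K G k) j * ENNReal.ofReal (C₂ ^ N)) * CW := by
    refine (lintegral_mono h3).trans ?_
    rw [lintegral_const_mul _ hmeas]
    gcongr
  have h9 : ‖((Cβ : ℝ) : ℂ)‖ₑ = ENNReal.ofReal Cβ := by
    rw [← ofReal_norm, Complex.norm_real, Real.norm_of_nonneg (by linarith)]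
  rw [h1, enorm_mul, h9]
  calc ENNReal.ofReal Cβ * ‖TP (fun x => ((Cβ⁻¹ : ℝ) : ℂ) * β x) (ctr K₁⁻¹ k') K₁⁻¹
        (fun ζ => cp β (ctr K⁻¹ k) K⁻¹ ζ * G ζ) z‖ₑ
      ≤ ENNReal.ofReal Cβ * (CK * ((aw N K 0 (uk β K G k) j * ENNReal.ofReal (C₂ ^ N)) * CW)) := by
        gcongr
        refine h2.trans ?_
        gcongr
    _ = ((Real.toNNReal Cβ * CK * (Real.toNNReal (C₂ ^ N) * CW) : ℝ≥0) : ℝ≥0∞) *
        aw N K 0 (uk β K G k) j := by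
        push_cast
        simp only [ENNReal.ofReal]
        ring

end Pool.Agent.H45.G4.SIG
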