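import Pool.Agent.H82.G4.Targets

/-!
Theorem G (MP_ee74d2_an), group G4, row SXN: finiteness of the sums over separated sets.
-/

set_option autoImplicit false

namespace Pool.Agent.H45.G4.SXN

open Pool.Agent.H82.G4 Pool.Agent.H83.G MeasureTheory Set
open scoped ENNReal NNReal

theorem pf_SXN (hSCH : T_SCH) (hWT1 : T_WT1) (hWT3 : T_WT3) : T_SXN := by
  intro m P G hP hG
  obtain ⟨-, h2⟩ := hSCH m G hG
  obtain ⟨C, hC, hb⟩ := h2 (m + 3)
  obtain ⟨h01, -⟩ := hWT1 m (m + 3)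
  obtain ⟨C', -, -, -, h4, -⟩ := hWT3 m (m + 3) le_rfl
  have key : ∀ z : Z m, ‖TF G z‖ₑ ^ P ≤
      ENNReal.ofReal C ^ P * ENNReal.ofReal (wt (m + 3) (z - 0)) := by
    intro z
    have hz := h01 z
    have hw : ENNReal.ofReal (wt (m + 3) z) ≤ 1 := by
      rw [← ENNReal.ofReal_one]
      exact ENNReal.ofReal_le_ofReal hz.2
    have h1 : ‖TF G z‖ₑ ≤ ENNReal.ofReal C * ENNReal.ofReal (wt (m + 3) z) := by
      rw [← ENNReal.ofReal_mul hC.le, ← ofReal_norm]
      exact ENNReal.ofReal_le_ofReal (hb z)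
    calc ‖TF G z‖ₑ ^ P ≤ (ENNReal.ofReal C * ENNReal.ofReal (wt (m + 3) z)) ^ P :=
          ENNReal.rpow_le_rpow h1 (by linarith)
      _ = ENNReal.ofReal C ^ P * ENNReal.ofReal (wt (m + 3) z) ^ P :=
          ENNReal.mul_rpow_of_nonneg _ _ (by linarith)
      _ ≤ ENNReal.ofReal C ^ P * ENNReal.ofReal (wt (m + 3) z) := by
          gcongr
          calc ENNReal.ofReal (wt (m + 3) z) ^ P ≤ ENNReal.ofReal (wt (m + 3) z) ^ (1 : ℝ) :=
                ENNReal.rpow_le_rpow_of_exponent_ge hw hP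
            _ = ENNReal.ofReal (wt (m + 3) z) := ENNReal.rpow_one _
      _ = ENNReal.ofReal C ^ P * ENNReal.ofReal (wt (m + 3) (z - 0)) := by rw [sub_zero]
  have hfin : SX P (TF G) ≤ ENNReal.ofReal C ^ P * C' := by
    unfold SX
    refine iSup_le fun X => iSup_le fun hX => ?_
    calc ∑ z ∈ X, ‖TF G z‖ₑ ^ P
        ≤ ∑ z ∈ X, ENNReal.ofReal C ^ P * ENNReal.ofReal (wt (m + 3) (z - 0)) :=
          Finset.sum_le_sum fun z _ => key z
      _ = ENNReal.ofReal C ^ P * ∑ z ∈ X, ENNReal.ofReal (wt (m + 3) (z - 0)) := by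
          rw [Finset.mul_sum]
      _ ≤ ENNReal.ofReal C ^ P * C' := by
          gcongr
          exact h4 X 0 hX
  refine lt_of_le_of_lt hfin ?_
  exact ENNReal.mul_lt_top (ENNReal.rpow_lt_top_of_nonneg (by linarith) ENNReal.ofReal_ne_top)
    ENNReal.coe_lt_top

end Pool.Agent.H45.G4.SXN
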